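import Pool.Agent.Lib.MP_f5ae99_gt.Gen

set_option autoImplicit false

namespace Pool.Agent.Results.MP_f5ae99_gt.ZeroDimensional

open Set Topology

universe u v w

/-- A space has a countable network: a countable family of subsets such that every open set is
a union of members of the family. -/
def HasCountableNetwork (Z : Type w) [TopologicalSpace Z] : Prop :=
  ∃ 𝒩 : Set (Set Z), 𝒩.Countable ∧ ∀ U : Set Z, IsOpen U → ∃ 𝒮 : Set (Set Z), 𝒮 ⊆ 𝒩 ∧ U = ⋃₀ 𝒮

/-- The closure of every countable subset has a countable network. -/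
def OmegaMonolithic (Z : Type w) [TopologicalSpace Z] : Prop :=
  ∀ A : Set Z, A.Countable → HasCountableNetwork (closure A : Set Z)

/-- Continuous functions from `X` to `M`, as a subspace of the product of copies of `M`. -/
abbrev Cp (X : Type u) (M : Type v) [TopologicalSpace X] [TopologicalSpace M] : Type (max u v) :=
  {f : X → M // Continuous f}

theorem network_iff {Z W : Type w} [TopologicalSpace Z] [TopologicalSpace W] {e : W → Z}
    (he : IsEmbedding e) :
    HasCountableNetwork W ↔ Pool.Agent.Lib.MP_f5ae99_gt.Two.Net (range e) := by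
  constructor
  · rintro ⟨𝒩, hc, h⟩
    refine ⟨(fun N => e '' N) '' 𝒩, hc.image _, ?_⟩
    rintro _ ⟨w, rfl⟩ U hU hw
    obtain ⟨𝒮, hS, hU'⟩ := h (e ⁻¹' U) (hU.preimage he.continuous)
    have : w ∈ ⋃₀ 𝒮 := hU' ▸ hw
    obtain ⟨N, hN, hwN⟩ := this
    refine ⟨e '' N, ⟨N, hS hN, rfl⟩, ⟨w, hwN, rfl⟩, ?_⟩
    rintro _ ⟨v, hv, rfl⟩
    have : v ∈ e ⁻¹' U := hU' ▸ ⟨N, hN, hv⟩
    exact this
  · rintro ⟨𝒩, hc, h⟩
    refine ⟨(fun N => e ⁻¹' N) '' 𝒩, hc.image _, ?_⟩
    intro U hU
    obtain ⟨V, hV, rfl⟩ := he.isInducing.isOpen_iff.1 hU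
    refine ⟨{M | M ∈ (fun N => e ⁻¹' N) '' 𝒩 ∧ M ⊆ e ⁻¹' V}, fun M hM => hM.1, ?_⟩
    apply Subset.antisymm
    · intro w hw
      obtain ⟨N, hN, hwN, hNV⟩ := h (e w) ⟨w, rfl⟩ V hV hw
      exact ⟨e ⁻¹' N, ⟨⟨N, hN, rfl⟩, preimage_mono hNV⟩, hwN⟩
    · rintro w ⟨M, hM, hw⟩
      exact hM.2 hw

theorem monolithic_iff {Z W : Type w} [TopologicalSpace Z] [TopologicalSpace W] {e : W → Z}
    (he : IsEmbedding e) :
    OmegaMonolithic W ↔ Pool.Agent.Lib.MP_f5ae99_gt.Two.Mono (range e) := by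
  have key : ∀ A : Set W, range (e ∘ (Subtype.val : ↥(closure A) → W)) =
      closure (e '' A) ∩ range e := by
    intro A
    rw [range_comp, Subtype.range_coe, he.closure_eq_preimage_closure_image,
      image_preimage_eq_inter_range]
  constructor
  · intro h A hA hc
    have h1 := (network_iff (he.comp IsEmbedding.subtypeVal)).1
      (h (e ⁻¹' A) (hc.preimage he.injective))
    rwa [key, image_preimage_eq_of_subset hA] at h1
  · intro h A hc
    refine (network_iff (he.comp IsEmbedding.subtypeVal)).2 ?_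
    rw [key]
    exact h _ (image_subset_range _ _) (hc.image _)

theorem result (X : Type u) [TopologicalSpace X] (M : Type v) [TopologicalSpace M]
    [TopologicalSpace.MetrizableSpace M] [TopologicalSpace.SeparableSpace M]
    (hM : TopologicalSpace.IsTopologicalBasis {U : Set M | IsClopen U})
    (Y : ℕ → Set (Cp X M)) (hY : (⋃ n, Y n) = univ) (hm : ∀ n, OmegaMonolithic (Y n)) :
    OmegaMonolithic (Cp X M) := by
  have he : IsEmbedding (Subtype.val : Cp X M → (X → M)) := IsEmbedding.subtypeVal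
  have hr : range (Subtype.val : Cp X M → (X → M)) = {f : X → M | Continuous f} :=
    Subtype.range_coe_subtype
  rw [monolithic_iff he, hr]
  have h1 : {f : X → M | Continuous f} ⊆ ⋃ n, Subtype.val '' Y n := by
    rw [← image_iUnion, hY, image_univ, hr]
  have h2 : ∀ n, Pool.Agent.Lib.MP_f5ae99_gt.Two.Mono (Subtype.val '' Y n : Set (X → M)) := by
    intro n
    have h3 := (monolithic_iff (he.comp (IsEmbedding.subtypeVal (p := fun f => f ∈ Y n)))).1 (hm n)
    rwa [range_comp, Subtype.range_coe_subtype] at h3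
  exact Pool.Agent.Lib.MP_f5ae99_gt.Two.zero_case hM _ h1 h2

end Pool.Agent.Results.MP_f5ae99_gt.ZeroDimensional
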